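import Pool.Agent.Y250.SS.Stm2

/-!
# Project SS (owner helper250), task SS-BT: the Besov class of the sphere in graph coordinates, and
the area of caps
-/

set_option autoImplicit false

namespace Pool.Agent.Y664.SS

open MeasureTheory Set Complex Filter Topology
open scoped ENNReal NNReal
open Pool.Agent.Y250.SS
open Pool.Agent.Helper793.Nir (E3 S2 sig rot rot_mp rot_coe exists_rot S2_norm sig_univ)

/-! ### Elementary facts -/

theorem hh_sq {x : ℝ × ℝ} (h : x.1 ^ 2 + x.2 ^ 2 ≤ 1) : hh x ^ 2 = 1 - x.1 ^ 2 - x.2 ^ 2 := by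
  unfold hh
  exact Real.sq_sqrt (by linarith)

theorem hh_nonneg (x : ℝ × ℝ) : 0 ≤ hh x := Real.sqrt_nonneg _

theorem hh_ge {x : ℝ × ℝ} (h : x.1 ^ 2 + x.2 ^ 2 ≤ 3 / 4) : 1 / 2 ≤ hh x := by
  unfold hh
  exact Real.le_sqrt_of_sq_le (by linarith)

theorem hh_le (x : ℝ × ℝ) : hh x ≤ 1 := by
  unfold hh
  exact Real.sqrt_le_one.2 (by nlinarith [sq_nonneg x.1, sq_nonneg x.2])

theorem hh_meas : Measurable hh := by
  unfold hh
  fun_prop

theorem Lo_meas : Measurable Lo := by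
  have h : Continuous Lo := by
    unfold Lo hh
    fun_prop
  exact h.measurable

theorem Lo_norm {x : ℝ × ℝ} (h : x.1 ^ 2 + x.2 ^ 2 ≤ 1) : ‖Lo x‖ = 1 := by
  have h1 := hh_sq h
  rw [EuclideanSpace.norm_eq, Real.sqrt_eq_one, Fin.sum_univ_three]
  simp only [Real.norm_eq_abs, sq_abs]
  show x.1 ^ 2 + x.2 ^ 2 + (-hh x) ^ 2 = 1
  nlinarith

theorem nsub_sq (x y : E3) : ‖x - y‖ ^ 2 = (x 0 - y 0) ^ 2 + (x 1 - y 1) ^ 2 + (x 2 - y 2) ^ 2 := by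
  rw [EuclideanSpace.norm_sq_eq, Fin.sum_univ_three]
  simp only [Real.norm_eq_abs, sq_abs]
  rfl

theorem so_sub (x : E3) : ‖x - so‖ ^ 2 = x 0 ^ 2 + x 1 ^ 2 + (x 2 + 1) ^ 2 := by
  rw [nsub_sq]
  show (x 0 - 0) ^ 2 + (x 1 - 0) ^ 2 + (x 2 - -1) ^ 2 = _
  ring

theorem Lo_so (x : ℝ × ℝ) : x.1 ^ 2 + x.2 ^ 2 ≤ ‖Lo x - so‖ ^ 2 := by
  rw [so_sub]
  show x.1 ^ 2 + x.2 ^ 2 ≤ x.1 ^ 2 + x.2 ^ 2 + (-hh x + 1) ^ 2
  nlinarith [sq_nonneg (-hh x + 1)]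

theorem S1_meas (h : S_XF) : MeasurableSet (S 1) := h.2.2.2.2.2 1 le_rfl

theorem S1_lt (h : S_XF) {x : ℝ × ℝ} (hx : x ∈ S 1) : x.1 ^ 2 + x.2 ^ 2 ≤ 3 / 4 := by
  have := h.2.2.2.2.1 1 le_rfl x hx
  linarith

theorem mem_S1 (h : S_XF) {x : ℝ × ℝ} (hx : x.1 ^ 2 + x.2 ^ 2 < 1 / 6) : x ∈ S 1 := by
  refine h.2.2.2.1 1 le_rfl ?_
  show x.1 ^ 2 + x.2 ^ 2 < 1 / (6 * ((1 : ℕ) : ℝ))
  rw [Nat.cast_one, mul_one]
  exact hx

theorem vol_ball {δ : ℝ} (hδ : 0 ≤ δ) :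
    volume {h : ℝ × ℝ | ‖h‖ ≤ δ} = ENNReal.ofReal (4 * δ ^ 2) := by
  have h1 : {h : ℝ × ℝ | ‖h‖ ≤ δ} = Metric.closedBall (0 : ℝ) δ ×ˢ Metric.closedBall (0 : ℝ) δ := by
    rw [closedBall_prod_same, Prod.mk_zero_zero]
    ext h
    rw [mem_closedBall_zero_iff]
    rfl
  rw [h1, Measure.volume_eq_prod, Measure.prod_prod, Real.volume_closedBall,
    ← ENNReal.ofReal_mul (by positivity)]
  congr 1
  ring

/-- the formula for the surface measure, as an inequality -/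
theorem SG_le (h : S_SG) (F : E3 → ℝ≥0∞) (hF : Measurable F) :
    ∫⁻ x in S 1, ENNReal.ofReal (1 / hh x) * F (Lo x) ≤ ∫⁻ x : S2, F x ∂sig := by
  rw [← h 1 F le_rfl hF]
  exact setLIntegral_le_lintegral _ _

/-! ### The area of caps -/

theorem ca : S_SG → S_XF → S_CA := by
  intro hSG hXF x δ hδ
  rcases le_or_gt (2 / 5) δ with h1 | h1
  · have h2 : sig {y : S2 | ‖(y : E3) - (x : E3)‖ ≤ δ} ≤ sig univ := measure_mono (subset_univ _)
    refine h2.trans ?_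
    have h3 : sig (univ : Set S2) = ENNReal.ofReal (4 * Real.pi) := by
      rw [← sig_univ, ofReal_measureReal]
    rw [h3]
    refine ENNReal.ofReal_le_ofReal ?_
    have := Real.pi_lt_d2
    nlinarith
  · -- rotation
    have hso : ‖so‖ = 1 := by
      have h2 := so_sub 0
      rw [zero_sub, norm_neg] at h2
      have h3 : ‖so‖ ^ 2 = 1 := by
        rw [h2]
        show (0 : ℝ) ^ 2 + 0 ^ 2 + (0 + 1) ^ 2 = 1
        norm_num
      nlinarith [norm_nonneg so]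
    obtain ⟨R, hR⟩ := exists_rot x (⟨so, by rw [mem_sphere_zero_iff_norm]; exact hso⟩ : S2)
    obtain ⟨B, hB⟩ : ∃ B : Set E3, B = {v : E3 | ‖v - so‖ ≤ δ} := ⟨_, rfl⟩
    have hBm : MeasurableSet B := by
      rw [hB]
      exact measurableSet_le (by fun_prop) measurable_const
    have h2 : {y : S2 | ‖(y : E3) - (x : E3)‖ ≤ δ} = rot R ⁻¹' (((↑) : S2 → E3) ⁻¹' B) := by
      ext y
      rw [hB]
      show ‖(y : E3) - (x : E3)‖ ≤ δ ↔ ‖R y - so‖ ≤ δ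
      have h3 : R x = so := hR
      rw [← h3, ← map_sub, R.norm_map]
    have hBm' : MeasurableSet (((↑) : S2 → E3) ⁻¹' B) := measurable_subtype_coe hBm
    rw [h2, (rot_mp R).measure_preimage hBm'.nullMeasurableSet]
    obtain ⟨T, hT⟩ : ∃ T : Set S2, T =
      {x : S2 | (x : E3) 2 < 0 ∧ ((x : E3) 0, (x : E3) 1) ∈ S 1} := ⟨_, rfl⟩
    have h3 : (((↑) : S2 → E3) ⁻¹' B) ⊆ T := by
      intro y hy
      rw [hB] at hy
      have h4 : ‖(y : E3) - so‖ ≤ δ := hy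
      have h5 := so_sub (y : E3)
      have h6 : ‖(y : E3) - so‖ ^ 2 ≤ δ ^ 2 := by gcongr
      have h7 := S2_norm y
      have h8 : (y : E3) 0 ^ 2 + (y : E3) 1 ^ 2 + (y : E3) 2 ^ 2 = 1 := by
        have h9 := EuclideanSpace.norm_sq_eq (y : E3)
        rw [h7, Fin.sum_univ_three] at h9
        simp only [Real.norm_eq_abs, sq_abs] at h9
        linarith
      rw [hT]
      refine ⟨by nlinarith, mem_S1 hXF ?_⟩
      show (y : E3) 0 ^ 2 + (y : E3) 1 ^ 2 < 1 / 6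
      nlinarith [sq_nonneg ((y : E3) 2 + 1)]
    have h4 : sig (((↑) : S2 → E3) ⁻¹' B) = ∫⁻ y in T, B.indicator (fun _ => (1 : ℝ≥0∞)) y ∂sig := by
      have h5 : ∀ y : S2, B.indicator (fun _ => (1 : ℝ≥0∞)) (y : E3) =
          (((↑) : S2 → E3) ⁻¹' B).indicator (fun _ => (1 : ℝ≥0∞)) y := fun y => rfl
      simp only [h5]
      rw [lintegral_indicator hBm', Measure.restrict_restrict hBm', lintegral_const, one_mul,
        Measure.restrict_apply MeasurableSet.univ, univ_inter, inter_eq_self_of_subset_left h3]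
    rw [h4, hT, hSG 1 _ le_rfl (measurable_const.indicator hBm)]
    have h5 : ∀ z ∈ S 1, ENNReal.ofReal (1 / hh z) * B.indicator (fun _ => (1 : ℝ≥0∞)) (Lo z) ≤
        {h : ℝ × ℝ | ‖h‖ ≤ δ}.indicator (fun _ => (2 : ℝ≥0∞)) z := by
      intro z hz
      by_cases hzB : Lo z ∈ B
      · rw [indicator_of_mem hzB, mul_one, indicator_of_mem]
        · have h6 := hh_ge (S1_lt hXF hz)
          rw [← ENNReal.ofReal_ofNat]
          refine ENNReal.ofReal_le_ofReal ?_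
          rw [div_le_iff₀ (by linarith)]
          linarith
        · rw [hB] at hzB
          have h6 : ‖Lo z - so‖ ≤ δ := hzB
          have h7 := Lo_so z
          have h8 : ‖Lo z - so‖ ^ 2 ≤ δ ^ 2 := by gcongr
          show ‖z‖ ≤ δ
          rw [Prod.norm_def]
          refine max_le (abs_le_of_sq_le_sq ?_ hδ.le) (abs_le_of_sq_le_sq ?_ hδ.le)
          · nlinarith [sq_nonneg z.2]
          · nlinarith [sq_nonneg z.1]
      · rw [indicator_of_notMem hzB, mul_zero]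
        exact zero_le
    refine (setLIntegral_mono' (S1_meas hXF) h5).trans ?_
    refine (setLIntegral_le_lintegral _ _).trans ?_
    rw [lintegral_indicator (measurableSet_le (by fun_prop) measurable_const), lintegral_const,
      Measure.restrict_apply MeasurableSet.univ, univ_inter, vol_ball hδ.le,
      ← ENNReal.ofReal_ofNat, ← ENNReal.ofReal_mul (by norm_num)]
    refine ENNReal.ofReal_le_ofReal ?_
    nlinarith [sq_nonneg δ]

/-! ### The Besov class -/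

theorem ext0_coe (g : S2 → ℂ) (x : S2) : ext0 g (x : E3) = g x :=
  Subtype.val_injective.extend_apply _ _ _

theorem ext0_meas {g : S2 → ℂ} (hg : Measurable g) : Measurable (ext0 g) := by
  have h1 : MeasurableEmbedding ((↑) : S2 → E3) :=
    MeasurableEmbedding.subtype_coe (Metric.isClosed_sphere.measurableSet)
  exact h1.measurable_extend hg measurable_const

theorem Gc_meas (hXF : S_XF) {g : S2 → ℂ} (hg : Measurable g) : Measurable (Gc g) := by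
  have h1 : Measurable fun z : ℝ × ℝ => 1 / hh z := measurable_const.div hh_meas
  exact ((Complex.measurable_ofReal.comp h1).mul ((ext0_meas hg).comp Lo_meas)).indicator
    (S1_meas hXF)

theorem esq (a : ℂ) : ‖a‖ₑ ^ 2 = ENNReal.ofReal (‖a‖ ^ 2) := by
  rw [← ofReal_norm, ENNReal.ofReal_pow (norm_nonneg _)]

theorem esub (a b : ℂ) : ‖a - b‖ₑ ^ 2 ≤ 2 * ‖a‖ₑ ^ 2 + 2 * ‖b‖ₑ ^ 2 := by
  rw [esq, esq, esq, ← ENNReal.ofReal_ofNat, ← ENNReal.ofReal_mul (by norm_num),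
    ← ENNReal.ofReal_mul (by norm_num), ← ENNReal.ofReal_add (by positivity) (by positivity)]
  refine ENNReal.ofReal_le_ofReal ?_
  have h1 := norm_sub_le a b
  have h2 : ‖a - b‖ ^ 2 ≤ (‖a‖ + ‖b‖) ^ 2 := by gcongr
  nlinarith [sq_nonneg (‖a‖ - ‖b‖)]

/-- the square of the density -/
theorem Gc_le (hXF : S_XF) (g : S2 → ℂ) (z : ℝ × ℝ) : ‖Gc g z‖ₑ ^ 2 ≤
    2 * (S 1).indicator (fun z => ENNReal.ofReal (1 / hh z) * ‖ext0 g (Lo z)‖ₑ ^ 2) z := by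
  unfold Gc
  by_cases hz : z ∈ S 1
  · rw [indicator_of_mem hz, indicator_of_mem hz, esq, esq, ← ENNReal.ofReal_mul (by
      have := hh_nonneg z
      positivity), ← ENNReal.ofReal_ofNat, ← ENNReal.ofReal_mul (by norm_num)]
    refine ENNReal.ofReal_le_ofReal ?_
    have h1 := hh_ge (S1_lt hXF hz)
    have h0 : 0 < hh z := by linarith
    have h2 : 1 / hh z ≤ 2 := by
      rw [div_le_iff₀ h0]
      linarith
    have h3 : 0 ≤ 1 / hh z := by positivity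
    rw [norm_mul, mul_pow, Complex.norm_real, Real.norm_eq_abs, sq_abs, ← mul_assoc]
    have h4 : 0 ≤ ‖ext0 g (Lo z)‖ ^ 2 := by positivity
    refine mul_le_mul_of_nonneg_right ?_ h4
    nlinarith
  · rw [indicator_of_notMem hz]
    simp

theorem Gc_sq (hSG : S_SG) (hXF : S_XF) {g : S2 → ℂ} (hg : Measurable g) {K : ℝ≥0∞}
    (hK : ∫⁻ x, ‖g x‖ₑ ^ 2 ∂sig ≤ K ^ 2) :
    ∫⁻ z in S 1, ENNReal.ofReal (1 / hh z) * ‖ext0 g (Lo z)‖ₑ ^ 2 ≤ K ^ 2 ∧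
      ∫⁻ z, ‖Gc g z‖ₑ ^ 2 ≤ 2 * K ^ 2 := by
  have h1 : ∫⁻ z in S 1, ENNReal.ofReal (1 / hh z) * ‖ext0 g (Lo z)‖ₑ ^ 2 ≤ K ^ 2 := by
    refine (SG_le hSG (fun v => ‖ext0 g v‖ₑ ^ 2) ((ext0_meas hg).enorm.pow_const 2)).trans ?_
    simp only [ext0_coe]
    exact hK
  refine ⟨h1, ?_⟩
  calc ∫⁻ z, ‖Gc g z‖ₑ ^ 2 ≤ ∫⁻ z, 2 *
        (S 1).indicator (fun z => ENNReal.ofReal (1 / hh z) * ‖ext0 g (Lo z)‖ₑ ^ 2) z :=
        lintegral_mono fun z => Gc_le hXF g z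
    _ = 2 * ∫⁻ z in S 1, ENNReal.ofReal (1 / hh z) * ‖ext0 g (Lo z)‖ₑ ^ 2 := by
        rw [lintegral_const_mul' _ _ (by norm_num), lintegral_indicator (S1_meas hXF)]
    _ ≤ 2 * K ^ 2 := by gcongr

/-- large `δ` -/
theorem big_delta (hSG : S_SG) (hXF : S_XF) {g : S2 → ℂ} (hg : Measurable g) {K : ℝ≥0∞}
    (hK : ∫⁻ x, ‖g x‖ₑ ^ 2 ∂sig ≤ K ^ 2) {δ : ℝ} (hδ : 0 < δ) :
    ∫⁻ h in {h : ℝ × ℝ | ‖h‖ ≤ δ}, ∫⁻ z, ‖Gc g (z - h) - Gc g z‖ₑ ^ 2 ≤
      K ^ 2 * ENNReal.ofReal (32 * δ ^ 2) := by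
  have hG := Gc_meas hXF hg
  have h1 := (Gc_sq hSG hXF hg hK).2
  have h2 : ∀ h : ℝ × ℝ, ∫⁻ z, ‖Gc g (z - h) - Gc g z‖ₑ ^ 2 ≤ 8 * K ^ 2 := by
    intro h
    have hm1 : Measurable fun z => ‖Gc g (z - h)‖ₑ ^ 2 :=
      (hG.comp (measurable_id.sub_const h)).enorm.pow_const 2
    calc ∫⁻ z, ‖Gc g (z - h) - Gc g z‖ₑ ^ 2
        ≤ ∫⁻ z, (2 * ‖Gc g (z - h)‖ₑ ^ 2 + 2 * ‖Gc g z‖ₑ ^ 2) := lintegral_mono fun z => esub _ _
      _ = 2 * (∫⁻ z, ‖Gc g (z - h)‖ₑ ^ 2) + 2 * (∫⁻ z, ‖Gc g z‖ₑ ^ 2) := by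
          rw [lintegral_add_left (hm1.const_mul 2), lintegral_const_mul' _ _ (by norm_num),
            lintegral_const_mul' _ _ (by norm_num)]
      _ = 4 * ∫⁻ z, ‖Gc g z‖ₑ ^ 2 := by
          rw [lintegral_sub_right_eq_self (fun z => ‖Gc g z‖ₑ ^ 2) h, ← add_mul]
          norm_num
      _ ≤ 4 * (2 * K ^ 2) := by gcongr
      _ = 8 * K ^ 2 := by ring
  calc ∫⁻ h in {h : ℝ × ℝ | ‖h‖ ≤ δ}, ∫⁻ z, ‖Gc g (z - h) - Gc g z‖ₑ ^ 2
      ≤ ∫⁻ _h in {h : ℝ × ℝ | ‖h‖ ≤ δ}, 8 * K ^ 2 := lintegral_mono fun h => h2 h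
    _ = K ^ 2 * ENNReal.ofReal (32 * δ ^ 2) := by
        rw [lintegral_const, Measure.restrict_apply MeasurableSet.univ, univ_inter,
          vol_ball hδ.le]
        have h3 : ENNReal.ofReal (32 * δ ^ 2) = 8 * ENNReal.ofReal (4 * δ ^ 2) := by
          rw [← ENNReal.ofReal_ofNat, ← ENNReal.ofReal_mul (by norm_num)]
          congr 1
          ring
        rw [h3]
        ring

theorem sq16 {x : ℝ} (h : |x| ≤ 1 / 4) : x ^ 2 ≤ 1 / 16 := by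
  have h1 : |x| ^ 2 ≤ (1 / 4) ^ 2 := by gcongr
  rw [sq_abs] at h1
  linarith

theorem sq64 {x : ℝ} (h : |x| ≤ 1 / 8) : x ^ 2 ≤ 1 / 64 := by
  have h1 : |x| ^ 2 ≤ (1 / 8) ^ 2 := by gcongr
  rw [sq_abs] at h1
  linarith

theorem near6 {a b c d : ℝ} (h : a ^ 2 + b ^ 2 ≤ 1 / 64) (h1 : |c - a| ≤ 1 / 8)
    (h2 : |d - b| ≤ 1 / 8) : c ^ 2 + d ^ 2 < 1 / 6 := by
  have e1 := sq64 h1
  have e2 := sq64 h2
  have e3 : c ^ 2 = 2 * a ^ 2 + 2 * (c - a) ^ 2 - (c - 2 * a) ^ 2 := by ring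
  have e4 : d ^ 2 = 2 * b ^ 2 + 2 * (d - b) ^ 2 - (d - 2 * b) ^ 2 := by ring
  have e5 := sq_nonneg (c - 2 * a)
  have e6 := sq_nonneg (d - 2 * b)
  rw [e3, e4]
  linarith

/-- the difference of the densities, real inequality -/
theorem real_ineq {z z' : ℝ × ℝ} {δ : ℝ} (hδ : 0 ≤ δ) (h1 : |z.1| ≤ 1 / 4) (h2 : |z.2| ≤ 1 / 4)
    (h1' : |z'.1| ≤ 1 / 4) (h2' : |z'.2| ≤ 1 / 4) (hd1 : |z'.1 - z.1| ≤ δ)
    (hd2 : |z'.2 - z.2| ≤ δ) (e e' : ℂ) :
    ‖Lo z' - Lo z‖ ≤ 2 * δ ∧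
    ‖((1 / hh z' : ℝ) : ℂ) * e' - ((1 / hh z : ℝ) : ℂ) * e‖ ^ 2 ≤
      4 * ((1 / hh z) * ((1 / hh z') * ‖e' - e‖ ^ 2)) + 32 * δ ^ 2 * ((1 / hh z) * ‖e‖ ^ 2) := by
  have a1 := sq16 h1
  have a2 := sq16 h2
  have a1' := sq16 h1'
  have a2' := sq16 h2'
  have b := hh_ge (x := z) (by linarith)
  have b' := hh_ge (x := z') (by linarith)
  have c := hh_sq (x := z) (by linarith)
  have c' := hh_sq (x := z') (by linarith)
  have d := hh_le z
  have d' := hh_le z'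
  have hdiff : |hh z' - hh z| ≤ δ := by
    have e1 : (hh z' - hh z) * (hh z' + hh z) =
        -((z'.1 - z.1) * (z'.1 + z.1) + (z'.2 - z.2) * (z'.2 + z.2)) := by
      linear_combination c' - c
    have e2 : |hh z' - hh z| * (hh z' + hh z) ≤ δ := by
      have e3 : |hh z' - hh z| * (hh z' + hh z) = |(hh z' - hh z) * (hh z' + hh z)| := by
        rw [abs_mul, abs_of_pos (show 0 < hh z' + hh z by linarith)]
      rw [e3, e1, abs_neg]
      have e4 : |z'.1 + z.1| ≤ 1 / 2 := (abs_add_le _ _).trans (by linarith)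
      have e5 : |z'.2 + z.2| ≤ 1 / 2 := (abs_add_le _ _).trans (by linarith)
      calc |(z'.1 - z.1) * (z'.1 + z.1) + (z'.2 - z.2) * (z'.2 + z.2)|
          ≤ |z'.1 - z.1| * |z'.1 + z.1| + |z'.2 - z.2| * |z'.2 + z.2| := by
            rw [← abs_mul, ← abs_mul]
            exact abs_add_le _ _
        _ ≤ δ * (1 / 2) + δ * (1 / 2) := by gcongr
        _ = δ := by ring
    have e6 : |hh z' - hh z| * 1 ≤ |hh z' - hh z| * (hh z' + hh z) := by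
      gcongr
      linarith
    linarith
  constructor
  · have e1 : ‖Lo z' - Lo z‖ ^ 2 = (z'.1 - z.1) ^ 2 + (z'.2 - z.2) ^ 2 + (hh z' - hh z) ^ 2 := by
      rw [nsub_sq]
      show (z'.1 - z.1) ^ 2 + (z'.2 - z.2) ^ 2 + (-hh z' - -hh z) ^ 2 = _
      ring
    have e2 : (z'.1 - z.1) ^ 2 ≤ δ ^ 2 := by rw [← sq_abs]; gcongr
    have e3 : (z'.2 - z.2) ^ 2 ≤ δ ^ 2 := by rw [← sq_abs]; gcongr
    have e4 : (hh z' - hh z) ^ 2 ≤ δ ^ 2 := by rw [← sq_abs]; gcongr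
    refine le_of_sq_le_sq ?_ (by positivity)
    have e5 : (2 * δ) ^ 2 = 4 * δ ^ 2 := by ring
    rw [e1, e5]
    linarith [sq_nonneg δ]
  · have p : 0 < hh z := by linarith
    have p' : 0 < hh z' := by linarith
    have q1 : 1 ≤ 1 / hh z := by rw [le_div_iff₀ p]; linarith
    have q2 : 1 / hh z' ≤ 2 := by rw [div_le_iff₀ p']; linarith
    have q3 : 0 ≤ 1 / hh z' := by positivity
    have q4 : |1 / hh z' - 1 / hh z| ≤ 4 * δ := by
      have e1 : 1 / hh z' - 1 / hh z = -((hh z' - hh z) / (hh z' * hh z)) := by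
        field_simp
        ring
      rw [e1, abs_neg, abs_div, abs_of_pos (mul_pos p' p), div_le_iff₀ (mul_pos p' p)]
      have e2 : 1 / 2 * (1 / 2) ≤ hh z' * hh z := by gcongr
      have e3 : 4 * δ * (1 / 2 * (1 / 2)) ≤ 4 * δ * (hh z' * hh z) := by gcongr
      linarith
    have e1 : ((1 / hh z' : ℝ) : ℂ) * e' - ((1 / hh z : ℝ) : ℂ) * e =
        ((1 / hh z' : ℝ) : ℂ) * (e' - e) + ((1 / hh z' - 1 / hh z : ℝ) : ℂ) * e := by
      rw [Complex.ofReal_sub]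
      ring
    have e2 : ‖((1 / hh z' : ℝ) : ℂ) * e' - ((1 / hh z : ℝ) : ℂ) * e‖ ≤
        (1 / hh z') * ‖e' - e‖ + 4 * δ * ‖e‖ := by
      rw [e1]
      refine (norm_add_le _ _).trans ?_
      rw [norm_mul, norm_mul, Complex.norm_real, Complex.norm_real, Real.norm_eq_abs,
        Real.norm_eq_abs, abs_of_nonneg q3]
      gcongr
    have e3 : ‖((1 / hh z' : ℝ) : ℂ) * e' - ((1 / hh z : ℝ) : ℂ) * e‖ ^ 2 ≤
        ((1 / hh z') * ‖e' - e‖ + 4 * δ * ‖e‖) ^ 2 := by gcongr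
    refine e3.trans ?_
    have e4 : ((1 / hh z') * ‖e' - e‖ + 4 * δ * ‖e‖) ^ 2 ≤
        2 * ((1 / hh z') * ‖e' - e‖) ^ 2 + 2 * (4 * δ * ‖e‖) ^ 2 := by
      nlinarith [sq_nonneg ((1 / hh z') * ‖e' - e‖ - 4 * δ * ‖e‖)]
    refine e4.trans (add_le_add ?_ ?_)
    · have e5 : 0 ≤ (1 / hh z') * ‖e' - e‖ ^ 2 := by positivity
      calc 2 * ((1 / hh z') * ‖e' - e‖) ^ 2 = 2 * ((1 / hh z') * ((1 / hh z') * ‖e' - e‖ ^ 2)) := by
            ring
        _ ≤ 2 * (2 * ((1 / hh z') * ‖e' - e‖ ^ 2)) := by gcongr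
        _ = 4 * (1 * ((1 / hh z') * ‖e' - e‖ ^ 2)) := by ring
        _ ≤ _ := by gcongr
    · have e5 : 0 ≤ ‖e‖ ^ 2 := by positivity
      calc 2 * (4 * δ * ‖e‖) ^ 2 = 32 * δ ^ 2 * (1 * ‖e‖ ^ 2) := by ring
        _ ≤ _ := by gcongr

open Classical in
/-- the pairs of near points -/
noncomputable def Fd (g : S2 → ℂ) (δ : ℝ) (u v : E3) : ℝ≥0∞ :=
  if ‖v - u‖ ≤ 2 * δ then ‖ext0 g v - ext0 g u‖ₑ ^ 2 else 0

theorem Fd_meas {g : S2 → ℂ} (hg : Measurable g) (δ : ℝ) :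
    Measurable fun p : E3 × E3 => Fd g δ p.1 p.2 := by
  have h1 : MeasurableSet {p : E3 × E3 | ‖p.2 - p.1‖ ≤ 2 * δ} :=
    measurableSet_le (by fun_prop) measurable_const
  have h2 : Measurable fun p : E3 × E3 => ‖ext0 g p.2 - ext0 g p.1‖ₑ ^ 2 :=
    (((ext0_meas hg).comp measurable_snd).sub
      ((ext0_meas hg).comp measurable_fst)).enorm.pow_const 2
  unfold Fd
  exact Measurable.ite h1 h2 measurable_const

/-- the double integral in graph coordinates -/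
theorem dbl (hSG : S_SG) {g : S2 → ℂ} (hg : Measurable g) (δ : ℝ) :
    ∫⁻ z in S 1, ∫⁻ z' in S 1, ENNReal.ofReal (1 / hh z) *
        (ENNReal.ofReal (1 / hh z') * Fd g δ (Lo z) (Lo z')) ≤
      ∫⁻ x, (∫⁻ y in {y : S2 | ‖(y : E3) - (x : E3)‖ ≤ 2 * δ}, ‖g y - g x‖ₑ ^ 2 ∂sig) ∂sig := by
  have hF := Fd_meas hg δ
  have h1 : ∀ z : ℝ × ℝ, ∫⁻ z' in S 1, ENNReal.ofReal (1 / hh z) *
        (ENNReal.ofReal (1 / hh z') * Fd g δ (Lo z) (Lo z')) ≤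
      ENNReal.ofReal (1 / hh z) * ∫⁻ y : S2, Fd g δ (Lo z) y ∂sig := by
    intro z
    rw [lintegral_const_mul' _ _ ENNReal.ofReal_ne_top]
    have h2 : Measurable fun v : E3 => Fd g δ (Lo z) v :=
      hF.comp (f := fun v : E3 => (Lo z, v)) (measurable_const.prodMk measurable_id)
    have h3 := SG_le hSG _ h2
    exact mul_le_mul' le_rfl h3
  have hH : Measurable fun u : E3 => ∫⁻ y : S2, Fd g δ u y ∂sig := by
    have h2 : Measurable fun p : E3 × S2 => Fd g δ p.1 p.2 :=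
      hF.comp (f := fun p : E3 × S2 => (p.1, (p.2 : E3)))
        (measurable_fst.prodMk (measurable_subtype_coe.comp measurable_snd))
    exact Measurable.lintegral_prod_right' (f := fun p : E3 × S2 => Fd g δ p.1 p.2) h2
  calc ∫⁻ z in S 1, ∫⁻ z' in S 1, ENNReal.ofReal (1 / hh z) *
        (ENNReal.ofReal (1 / hh z') * Fd g δ (Lo z) (Lo z'))
      ≤ ∫⁻ z in S 1, ENNReal.ofReal (1 / hh z) * ∫⁻ y : S2, Fd g δ (Lo z) y ∂sig :=
        lintegral_mono fun z => h1 z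
    _ ≤ ∫⁻ x : S2, ∫⁻ y : S2, Fd g δ x y ∂sig ∂sig :=
        SG_le hSG (fun u : E3 => ∫⁻ y : S2, Fd g δ u y ∂sig) hH
    _ = _ := by
        refine lintegral_congr fun x => ?_
        have hm : MeasurableSet {y : S2 | ‖(y : E3) - (x : E3)‖ ≤ 2 * δ} :=
          measurableSet_le (by fun_prop) measurable_const
        rw [← lintegral_indicator hm]
        refine lintegral_congr fun y => ?_
        unfold Fd
        by_cases hy : ‖(y : E3) - (x : E3)‖ ≤ 2 * δ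
        · rw [if_pos hy,
            indicator_of_mem (show y ∈ {y : S2 | ‖(y : E3) - (x : E3)‖ ≤ 2 * δ} from hy),
            ext0_coe, ext0_coe]
        · rw [if_neg hy,
            indicator_of_notMem (show y ∉ {y : S2 | ‖(y : E3) - (x : E3)‖ ≤ 2 * δ} from hy)]

/-- the support of the density -/
theorem Gc_supp (hXF : S_XF) {g : S2 → ℂ} (hs : ∀ x : S2, g x ≠ 0 → ‖(x : E3) - so‖ ≤ 1 / 8)
    {z : ℝ × ℝ} (hz : Gc g z ≠ 0) : z.1 ^ 2 + z.2 ^ 2 ≤ 1 / 64 := by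
  have h1 : z ∈ S 1 := by
    by_contra hc
    apply hz
    unfold Gc
    rw [indicator_of_notMem hc]
  have h2 : ext0 g (Lo z) ≠ 0 := by
    intro hc
    apply hz
    unfold Gc
    rw [indicator_of_mem h1, hc, mul_zero]
  have h3 : ‖Lo z‖ = 1 := Lo_norm (by linarith [S1_lt hXF h1])
  obtain ⟨x, hx⟩ : ∃ x : S2, (x : E3) = Lo z :=
    ⟨⟨Lo z, by rw [mem_sphere_zero_iff_norm]; exact h3⟩, rfl⟩
  rw [← hx, ext0_coe] at h2
  have h4 := hs x h2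
  rw [hx] at h4
  have h5 : ‖Lo z - so‖ ^ 2 ≤ (1 / 8) ^ 2 := by gcongr
  have h6 := Lo_so z
  linarith

/-- the double integrand -/
noncomputable def Ph (g : S2 → ℂ) (δ : ℝ) (z z' : ℝ × ℝ) : ℝ≥0∞ :=
  ENNReal.ofReal (1 / hh z) * (ENNReal.ofReal (1 / hh z') * Fd g δ (Lo z) (Lo z'))

/-- the double integrand, extended by zero -/
noncomputable def Psi (g : S2 → ℂ) (δ : ℝ) (z z' : ℝ × ℝ) : ℝ≥0∞ :=
  (S 1).indicator (fun z => (S 1).indicator (fun z' => Ph g δ z z') z') z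

/-- the integrand, extended by zero -/
noncomputable def Ii (g : S2 → ℂ) (z : ℝ × ℝ) : ℝ≥0∞ :=
  (S 1).indicator (fun z => ENNReal.ofReal (1 / hh z) * ‖ext0 g (Lo z)‖ₑ ^ 2) z

/-- the pointwise bound -/
theorem ptw (hXF : S_XF) {g : S2 → ℂ} (hs : ∀ x : S2, g x ≠ 0 → ‖(x : E3) - so‖ ≤ 1 / 8)
    {δ : ℝ} (hδ : 0 < δ) (hδ' : δ ≤ 1 / 8) {h : ℝ × ℝ} (hh' : ‖h‖ ≤ δ) (z : ℝ × ℝ) :
    ‖Gc g (z - h) - Gc g z‖ₑ ^ 2 ≤
      4 * Psi g δ z (z - h) + ENNReal.ofReal (32 * δ ^ 2) * Ii g z := by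
  by_cases h0 : Gc g (z - h) = 0 ∧ Gc g z = 0
  · rw [h0.1, h0.2, sub_zero, enorm_zero, zero_pow (by norm_num)]
    exact zero_le
  · obtain ⟨z', hz'⟩ : ∃ z' : ℝ × ℝ, z' = z - h := ⟨_, rfl⟩
    rw [← hz'] at h0
    have d1 : |z'.1 - z.1| ≤ δ := by
      rw [hz']
      show |z.1 - h.1 - z.1| ≤ δ
      rw [show z.1 - h.1 - z.1 = -h.1 by ring, abs_neg]
      exact (norm_fst_le h).trans hh'
    have d2 : |z'.2 - z.2| ≤ δ := by
      rw [hz']
      show |z.2 - h.2 - z.2| ≤ δ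
      rw [show z.2 - h.2 - z.2 = -h.2 by ring, abs_neg]
      exact (norm_snd_le h).trans hh'
    have hb : (|z.1| ≤ 1 / 4 ∧ |z.2| ≤ 1 / 4) ∧ (|z'.1| ≤ 1 / 4 ∧ |z'.2| ≤ 1 / 4) ∧
        z.1 ^ 2 + z.2 ^ 2 < 1 / 6 ∧ z'.1 ^ 2 + z'.2 ^ 2 < 1 / 6 := by
      have f1 := d1.trans hδ'
      have f2 := d2.trans hδ'
      have f1' : |z.1 - z'.1| ≤ 1 / 8 := by rwa [abs_sub_comm]
      have f2' : |z.2 - z'.2| ≤ 1 / 8 := by rwa [abs_sub_comm]
      rw [abs_le] at d1 d2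
      rw [not_and_or] at h0
      rcases h0 with h0 | h0
      · have h1 := Gc_supp hXF hs h0
        have h2 : |z'.1| ≤ 1 / 8 := abs_le_of_sq_le_sq (by nlinarith [sq_nonneg z'.2]) (by norm_num)
        have h3 : |z'.2| ≤ 1 / 8 := abs_le_of_sq_le_sq (by nlinarith [sq_nonneg z'.1]) (by norm_num)
        rw [abs_le] at h2 h3
        refine ⟨⟨abs_le.2 ⟨by linarith, by linarith⟩, abs_le.2 ⟨by linarith, by linarith⟩⟩,
          ⟨abs_le.2 ⟨by linarith, by linarith⟩, abs_le.2 ⟨by linarith, by linarith⟩⟩, ?_,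
          by linarith⟩
        exact near6 h1 f1' f2'
      · have h1 := Gc_supp hXF hs h0
        have h2 : |z.1| ≤ 1 / 8 := abs_le_of_sq_le_sq (by nlinarith [sq_nonneg z.2]) (by norm_num)
        have h3 : |z.2| ≤ 1 / 8 := abs_le_of_sq_le_sq (by nlinarith [sq_nonneg z.1]) (by norm_num)
        rw [abs_le] at h2 h3
        refine ⟨⟨abs_le.2 ⟨by linarith, by linarith⟩, abs_le.2 ⟨by linarith, by linarith⟩⟩,
          ⟨abs_le.2 ⟨by linarith, by linarith⟩, abs_le.2 ⟨by linarith, by linarith⟩⟩,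
          by linarith, ?_⟩
        exact near6 h1 f1 f2
    obtain ⟨⟨b1, b2⟩, ⟨b1', b2'⟩, c, c'⟩ := hb
    have hz1 := mem_S1 hXF c
    have hz1' := mem_S1 hXF c'
    obtain ⟨r1, r2⟩ := real_ineq hδ.le b1 b2 b1' b2' d1 d2 (ext0 g (Lo z)) (ext0 g (Lo z'))
    have p := hh_nonneg z
    have p' := hh_nonneg z'
    rw [← hz']
    unfold Psi Ii Ph
    rw [indicator_of_mem hz1, indicator_of_mem hz1', indicator_of_mem hz1]
    unfold Gc Fd
    rw [indicator_of_mem hz1, indicator_of_mem hz1', if_pos r1]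
    show ‖((1 / hh z' : ℝ) : ℂ) * ext0 g (Lo z') - ((1 / hh z : ℝ) : ℂ) * ext0 g (Lo z)‖ₑ ^ 2 ≤
      4 * (ENNReal.ofReal (1 / hh z) * (ENNReal.ofReal (1 / hh z') *
        ‖ext0 g (Lo z') - ext0 g (Lo z)‖ₑ ^ 2)) +
      ENNReal.ofReal (32 * δ ^ 2) * (ENNReal.ofReal (1 / hh z) * ‖ext0 g (Lo z)‖ₑ ^ 2)
    rw [esq, esq, esq, ← ENNReal.ofReal_mul (by positivity), ← ENNReal.ofReal_mul (by positivity),
      ← ENNReal.ofReal_mul (by positivity), ← ENNReal.ofReal_mul (by positivity),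
      ← ENNReal.ofReal_ofNat, ← ENNReal.ofReal_mul (by norm_num),
      ← ENNReal.ofReal_add (by positivity) (by positivity)]
    exact ENNReal.ofReal_le_ofReal r2

/-- small `δ` -/
theorem small_delta (hSG : S_SG) (hXF : S_XF) {g : S2 → ℂ} (hg : Measurable g) {K : ℝ≥0∞}
    (hK : ∫⁻ x, ‖g x‖ₑ ^ 2 ∂sig ≤ K ^ 2) (hs : ∀ x : S2, g x ≠ 0 → ‖(x : E3) - so‖ ≤ 1 / 8)
    {δ : ℝ} (hδ : 0 < δ) (hδ' : δ ≤ 1 / 8) :
    ∫⁻ h in {h : ℝ × ℝ | ‖h‖ ≤ δ}, ∫⁻ z, ‖Gc g (z - h) - Gc g z‖ₑ ^ 2 ≤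
      4 * (∫⁻ x, (∫⁻ y in {y : S2 | ‖(y : E3) - (x : E3)‖ ≤ 2 * δ}, ‖g y - g x‖ₑ ^ 2 ∂sig) ∂sig) +
      K ^ 2 * ENNReal.ofReal (128 * δ ^ 4) := by
  have hS := S1_meas hXF
  have hBm : MeasurableSet {h : ℝ × ℝ | ‖h‖ ≤ δ} := measurableSet_le (by fun_prop) measurable_const
  have hΦm : Measurable fun p : (ℝ × ℝ) × (ℝ × ℝ) => Ph g δ p.1 p.2 := by
    have a1 : Measurable fun p : (ℝ × ℝ) × (ℝ × ℝ) => ENNReal.ofReal (1 / hh p.1) :=
      (measurable_const.div (hh_meas.comp measurable_fst)).ennreal_ofReal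
    have a2 : Measurable fun p : (ℝ × ℝ) × (ℝ × ℝ) => ENNReal.ofReal (1 / hh p.2) :=
      (measurable_const.div (hh_meas.comp measurable_snd)).ennreal_ofReal
    have a3 : Measurable fun p : (ℝ × ℝ) × (ℝ × ℝ) => Fd g δ (Lo p.1) (Lo p.2) :=
      (Fd_meas hg δ).comp (f := fun p : (ℝ × ℝ) × (ℝ × ℝ) => (Lo p.1, Lo p.2))
        ((Lo_meas.comp measurable_fst).prodMk (Lo_meas.comp measurable_snd))
    unfold Ph
    exact a1.mul (a2.mul a3)
  have hΨm : Measurable fun p : (ℝ × ℝ) × (ℝ × ℝ) => Psi g δ p.1 p.2 := by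
    have h1 : (fun p : (ℝ × ℝ) × (ℝ × ℝ) => Psi g δ p.1 p.2) =
        (S 1 ×ˢ S 1).indicator fun p : (ℝ × ℝ) × (ℝ × ℝ) => Ph g δ p.1 p.2 := by
      funext p
      unfold Psi
      by_cases a : p.1 ∈ S 1
      · by_cases b : p.2 ∈ S 1
        · rw [indicator_of_mem (show p ∈ S 1 ×ˢ S 1 from ⟨a, b⟩), indicator_of_mem a,
            indicator_of_mem b]
        · rw [indicator_of_notMem (show p ∉ S 1 ×ˢ S 1 from fun hc => b hc.2),
            indicator_of_mem a, indicator_of_notMem b]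
      · rw [indicator_of_notMem (show p ∉ S 1 ×ˢ S 1 from fun hc => a hc.1),
          indicator_of_notMem a]
    rw [h1]
    exact hΦm.indicator (hS.prod hS)
  have hI2 : ∫⁻ z, Ii g z ≤ K ^ 2 := by
    unfold Ii
    rw [lintegral_indicator hS]
    exact (Gc_sq hSG hXF hg hK).1
  have h1 : ∀ h ∈ {h : ℝ × ℝ | ‖h‖ ≤ δ}, ∫⁻ z, ‖Gc g (z - h) - Gc g z‖ₑ ^ 2 ≤
      4 * (∫⁻ z, Psi g δ z (z - h)) + ENNReal.ofReal (32 * δ ^ 2) * K ^ 2 := by
    intro h hh'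
    have hm : Measurable fun z => Psi g δ z (z - h) :=
      hΨm.comp (f := fun z : ℝ × ℝ => (z, z - h)) (measurable_id.prodMk
        (measurable_id.sub_const h))
    calc ∫⁻ z, ‖Gc g (z - h) - Gc g z‖ₑ ^ 2
        ≤ ∫⁻ z, (4 * Psi g δ z (z - h) + ENNReal.ofReal (32 * δ ^ 2) * Ii g z) :=
          lintegral_mono fun z => ptw hXF hs hδ hδ' hh' z
      _ = 4 * (∫⁻ z, Psi g δ z (z - h)) + ENNReal.ofReal (32 * δ ^ 2) * (∫⁻ z, Ii g z) := by
          rw [lintegral_add_left (hm.const_mul 4), lintegral_const_mul' _ _ (by norm_num),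
            lintegral_const_mul' _ _ ENNReal.ofReal_ne_top]
      _ ≤ _ := by gcongr
  have h2 : ∫⁻ h in {h : ℝ × ℝ | ‖h‖ ≤ δ}, ∫⁻ z, Psi g δ z (z - h) ≤
      ∫⁻ z in S 1, ∫⁻ z' in S 1, Ph g δ z z' := by
    have hm : Measurable fun p : (ℝ × ℝ) × (ℝ × ℝ) => Psi g δ p.2 (p.2 - p.1) :=
      hΨm.comp (f := fun p : (ℝ × ℝ) × (ℝ × ℝ) => (p.2, p.2 - p.1))
        (measurable_snd.prodMk (measurable_snd.sub measurable_fst))
    calc ∫⁻ h in {h : ℝ × ℝ | ‖h‖ ≤ δ}, ∫⁻ z, Psi g δ z (z - h) ≤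
          ∫⁻ h, ∫⁻ z, Psi g δ z (z - h) := setLIntegral_le_lintegral _ _
      _ = ∫⁻ z, ∫⁻ h, Psi g δ z (z - h) := lintegral_lintegral_swap hm.aemeasurable
      _ = ∫⁻ z, ∫⁻ z', Psi g δ z z' := by
          refine lintegral_congr fun z => ?_
          exact lintegral_sub_left_eq_self (fun z' => Psi g δ z z') z
      _ = ∫⁻ z in S 1, ∫⁻ z' in S 1, Ph g δ z z' := by
          rw [← lintegral_indicator hS]
          refine lintegral_congr fun z => ?_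
          by_cases a : z ∈ S 1
          · rw [indicator_of_mem a, ← lintegral_indicator hS]
            refine lintegral_congr fun z' => ?_
            unfold Psi
            rw [indicator_of_mem a]
          · rw [indicator_of_notMem a]
            unfold Psi
            simp only [indicator_of_notMem a, lintegral_zero]
  have h3 := dbl hSG hg δ
  calc ∫⁻ h in {h : ℝ × ℝ | ‖h‖ ≤ δ}, ∫⁻ z, ‖Gc g (z - h) - Gc g z‖ₑ ^ 2
      ≤ ∫⁻ h in {h : ℝ × ℝ | ‖h‖ ≤ δ},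
        (4 * (∫⁻ z, Psi g δ z (z - h)) + ENNReal.ofReal (32 * δ ^ 2) * K ^ 2) :=
        setLIntegral_mono' hBm h1
    _ = 4 * (∫⁻ h in {h : ℝ × ℝ | ‖h‖ ≤ δ}, ∫⁻ z, Psi g δ z (z - h)) +
        ENNReal.ofReal (32 * δ ^ 2) * K ^ 2 * ENNReal.ofReal (4 * δ ^ 2) := by
        rw [lintegral_add_right _ measurable_const, lintegral_const_mul' _ _ (by norm_num),
          lintegral_const, Measure.restrict_apply MeasurableSet.univ, univ_inter, vol_ball hδ.le]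
    _ ≤ _ := by
        refine add_le_add ?_ (le_of_eq ?_)
        · gcongr
          exact h2.trans h3
        · have h4 : ENNReal.ofReal (128 * δ ^ 4) =
              ENNReal.ofReal (32 * δ ^ 2) * ENNReal.ofReal (4 * δ ^ 2) := by
            rw [← ENNReal.ofReal_mul (by positivity)]
            congr 1
            ring
          rw [h4]
          ring

theorem bt : S_SG → S_XF → S_BT := by
  intro hSG hXF s K g hs0 hs1 hB hs
  obtain ⟨hg, hK, hδ⟩ := hB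
  refine ⟨Gc_meas hXF hg, ?_, fun δ hδ0 hδ1 => ?_⟩
  · refine (Gc_sq hSG hXF hg hK).2.trans ?_
    push_cast
    rw [mul_pow]
    gcongr
    norm_num
  · have hpow : 0 < δ ^ (2 + 2 * s) := Real.rpow_pos_of_pos hδ0 _
    have e1 : ((100 * K : ℝ≥0) : ℝ≥0∞) ^ 2 * ENNReal.ofReal (δ ^ (2 + 2 * s)) =
        (K : ℝ≥0∞) ^ 2 * ENNReal.ofReal (10000 * δ ^ (2 + 2 * s)) := by
      rw [ENNReal.ofReal_mul (by norm_num), ENNReal.coe_mul, mul_pow]
      have e2 : ENNReal.ofReal 10000 = ((100 : ℝ≥0) : ℝ≥0∞) ^ 2 := by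
        rw [← ENNReal.coe_pow, ENNReal.ofReal]
        congr 1
        ext
        norm_num
      rw [e2]
      ring
    rw [e1]
    rcases le_or_gt δ (1 / 8) with h1 | h1
    · refine (small_delta hSG hXF hg hK hs hδ0 h1).trans ?_
      have h2 := hδ (2 * δ) (by linarith) (by linarith)
      calc 4 * (∫⁻ x, (∫⁻ y in {y : S2 | ‖(y : E3) - (x : E3)‖ ≤ 2 * δ},
            ‖g y - g x‖ₑ ^ 2 ∂sig) ∂sig) + (K : ℝ≥0∞) ^ 2 * ENNReal.ofReal (128 * δ ^ 4)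
          ≤ 4 * ((K : ℝ≥0∞) ^ 2 * ENNReal.ofReal ((2 * δ) ^ (2 + 2 * s))) +
            (K : ℝ≥0∞) ^ 2 * ENNReal.ofReal (128 * δ ^ 4) := by gcongr
        _ = (K : ℝ≥0∞) ^ 2 * ENNReal.ofReal (4 * (2 * δ) ^ (2 + 2 * s) + 128 * δ ^ 4) := by
            rw [ENNReal.ofReal_add (by positivity) (by positivity),
              ENNReal.ofReal_mul (show (0 : ℝ) ≤ 4 by norm_num), ENNReal.ofReal_ofNat]
            ring
        _ ≤ _ := by
            gcongr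
            have h3 : (2 * δ) ^ (2 + 2 * s) ≤ 16 * δ ^ (2 + 2 * s) := by
              rw [Real.mul_rpow (by norm_num) hδ0.le]
              gcongr
              calc (2 : ℝ) ^ (2 + 2 * s) ≤ (2 : ℝ) ^ (4 : ℝ) :=
                    Real.rpow_le_rpow_of_exponent_le (by norm_num) (by linarith)
                _ = 16 := by norm_num
            have h4 : δ ^ 4 ≤ δ ^ (2 + 2 * s) := by
              calc δ ^ 4 = δ ^ ((4 : ℕ) : ℝ) := (Real.rpow_natCast _ _).symm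
                _ ≤ _ := Real.rpow_le_rpow_of_exponent_ge hδ0 hδ1 (by push_cast; linarith)
            linarith
    · refine (big_delta hSG hXF hg hK hδ0).trans ?_
      refine mul_le_mul' le_rfl (ENNReal.ofReal_le_ofReal ?_)
      have h3 : δ ^ 4 ≤ δ ^ (2 + 2 * s) := by
        calc δ ^ 4 = δ ^ ((4 : ℕ) : ℝ) := (Real.rpow_natCast _ _).symm
          _ ≤ _ := Real.rpow_le_rpow_of_exponent_ge hδ0 hδ1 (by push_cast; linarith)
      have h4 : 32 * δ ^ 2 ≤ 10000 * δ ^ 4 := by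
        have h5 : 1 / 64 ≤ δ ^ 2 := by nlinarith
        nlinarith [sq_nonneg δ]
      linarith

end Pool.Agent.Y664.SS
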